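import Pool.Agent.R502.WD.Gen2

/-!
# Windows free of iterated prime-indexed summands

The question asks for explicit thresholds from which on every even number is a sum of an `a`-prime and
a `b`-prime. Here we show for almost all `N` that the `a`-primes in such representations are missing
from many initial windows: put `y_a = λ log X (log log X) ^ (a + 1)`. For every `m`, `λ` and `ε`
there are `c > 0` and `K₀` such that for `K ≥ K₀` and all large `X`, for all but `ε X` of the `N ≤ X`
and for every `a ≤ m`, at least `c K` of the `K` intervals `(i y_a, (i + 1) y_a]`, `i < K`, contain no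
`a`-prime occuring in a representation of `N` as a sum of an `a`-prime and a `b`-prime (`b` arbitrary).
-/

set_option autoImplicit false

open Finset Filter

namespace Pool.Agent.Results.MP_e3f158_nt.FreeWindows

/-- the `x`-th `i`-prime -/
noncomputable def ip (i x : ℕ) : ℕ := (fun k : ℕ => Nat.nth Nat.Prime (k - 1))^[i + 1] x

/-- `y_i = λ log X (log log X) ^ (i + 1)` -/
noncomputable def y (i : ℕ) (lam X : ℝ) : ℝ :=
  lam * Real.log X * Real.log (Real.log X) ^ (i + 1)

/-- the `i`-th window of `a`-primes is not used in the representations of `N` -/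
def Free (a : ℕ) (lam X : ℝ) (N i : ℕ) : Prop :=
  ∀ b u v : ℕ, 0 < u → 0 < v → ip a u + ip b v = N →
    ¬ ((i : ℝ) * y a lam X < ip a u ∧ (ip a u : ℝ) ≤ (i + 1) * y a lam X)

open Classical in
/-- **Windows free of iterated prime-indexed summands, for almost all `N`.** -/
theorem result (m : ℕ) (lam : ℝ) (hlam : 0 < lam) : ∀ ε : ℝ, 0 < ε → ∃ c : ℝ, 0 < c ∧ ∃ K₀ : ℕ,
    ∀ K : ℕ, K₀ ≤ K → ∃ X₀ : ℝ, ∀ X : ℝ, X₀ ≤ X →
      (((Icc 1 ⌊X⌋₊).filter (fun N => ∃ a : ℕ, a ≤ m ∧
        (((range K).filter (fun i => Free a lam X N i)).card : ℝ) < c * K)).card : ℝ) ≤ ε * X := by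
  intro ε hε
  obtain ⟨c, hc, K₀, h⟩ := Pool.Agent.R502.WD.gen_windows (m + 1) Pool.Agent.R502.WD.IterPrime
    (fun a => a + 1) Pool.Agent.R502.WD.card_iterPrime lam hlam ε hε
  refine ⟨c, hc, K₀, fun K hK => ?_⟩
  obtain ⟨X₀, hX₀⟩ := h K hK
  refine ⟨X₀, fun X hX => le_trans ?_ (hX₀ X hX)⟩
  apply Nat.cast_le.2
  apply card_le_card
  intro N hN
  rw [mem_filter] at hN ⊢
  obtain ⟨hN1, a, ha, hN2⟩ := hN
  refine ⟨hN1, a, by omega, lt_of_le_of_lt ?_ hN2⟩
  apply Nat.cast_le.2
  apply card_le_card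
  intro i hi
  rw [mem_filter] at hi ⊢
  refine ⟨hi.1, fun b u v hu hv hN3 => ?_⟩
  have hprime : (ip b v).Prime := by
    unfold ip
    rw [Function.iterate_succ_apply']
    exact Nat.prime_nth_prime _
  exact hi.2 (ip a u) (ip b v) ⟨u, hu, rfl⟩ hprime hN3.symm

end Pool.Agent.Results.MP_e3f158_nt.FreeWindows
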