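import Pool.Agent.W23.SG.All
import Pool.Agent.Y886.UTC

/-!
# MP_e3f158_nt: all types `(a, almost prime)` at once, uniformly in `a`, with few exceptions

Let `U_a(X)` be the set of the `a`-primes `p ≤ X`. We prove:

(1) there are `c, C, K > 0` such that for ALL `A` and `X` with `K (A + 2) log (A + 2) ≤ log X` (the threshold
`f₂(A, 0) = 2 ^ (A² + 2 A + 4)` of the question is much larger) the following holds for all but at most
`C ^ (A + 1) (log X) ^ A` of the integers `N`, `|N| ≤ 2 X`: for EVERY `a ≤ A` the number `|N - p|` is, for at least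
`c |U_a(X)|` of the `a`-primes `p ≤ X`, an almost prime: `|N - p| = m s`, where `m` has only prime factors `< X ^ ε` and
`s` is `1`, a prime or a product of two primes, all larger than `X ^ (1 / 7)`;

(2) in the range of the question: for all large `X` and all but at most `exp (2 √(log X) log log X) = X ^ o(1)` of the
even integers `2 n` in `(X, 2 X]`, for ALL the types `(a, b)` with `f₂(a, b) ≤ n`, the number `2 n` is the sum of an
`a`-prime `p ≤ X` and such an almost prime, for at least `c |U_a(X)|` of the `p`.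
-/

set_option autoImplicit false

open Finset Filter Topology

namespace Pool.Agent.Results.MP_e3f158_nt.UniformFewExceptions

/-- the `x`-th prime, for `x ≥ 1` -/
noncomputable def pr (x : ℕ) : ℕ := Nat.nth Nat.Prime (x - 1)

/-- the `x`-th `i`-prime, for `x ≥ 1`: the `(i + 1)`-fold iterate of `pr` -/
noncomputable def iPrime (i x : ℕ) : ℕ := pr^[i + 1] x

open Classical in
/-- the set of the `a`-primes `p ≤ X` -/
noncomputable def U (a X : ℕ) : Finset ℕ := (Icc 1 X).filter (fun p => ∃ x : ℕ, 1 ≤ x ∧ iPrime a x = p)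

/-- `k = m s > 0`, where all prime factors of `m` are `< X ^ ε` and `s` has at most two prime factors, counted with
multiplicity, all of them `> X ^ (1 / 7)` -/
def Almost (X : ℕ) (ε : ℝ) (k : ℕ) : Prop :=
  0 < k ∧ ∃ m s : ℕ, k = m * s ∧ (∀ l : ℕ, l.Prime → l ∣ m → (l : ℝ) < (X : ℝ) ^ ε) ∧
    s.primeFactorsList.length ≤ 2 ∧ ∀ q ∈ s.primeFactors, (X : ℝ) ^ (1 / 7 : ℝ) < q

/-- the function `f₂` of the question -/
noncomputable def f₂ (a b : ℕ) : ℝ :=
  if a = b then
    (if a = 0 then (2 : ℝ) ^ (((a : ℝ) + 1) * (b + 1) * (a + b + 2))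
      else (2 : ℝ) ^ (((a : ℝ) + 1) ^ 2 * (2 * a + 3) / a - 2 * a))
  else (2 : ℝ) ^ (((a : ℝ) + 1) * (b + 1) * (a + b + 2) - (a + b - 2))

open Classical in
/-- the number of the `a`-primes `p ≤ X` for which `|N - p|` is an almost prime -/
noncomputable def R (X : ℕ) (ε : ℝ) (a : ℕ) (N : ℤ) : ℕ :=
  ((U a X).filter (fun p : ℕ => Almost X ε (N - p).natAbs)).card

open Classical in
/-- the number of the `a`-primes `p ≤ X` for which `N - p` is positive and an almost prime -/
noncomputable def RS (X : ℕ) (ε : ℝ) (a N : ℕ) : ℕ :=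
  ((U a X).filter (fun p : ℕ => ∃ k : ℕ, p + k = N ∧ Almost X ε k)).card

lemma U_prime {a X p : ℕ} (h : p ∈ U a X) : p.Prime ∧ p ≤ X := by
  classical
  unfold U at h
  rw [mem_filter, mem_Icc] at h
  obtain ⟨h1, x, -, h2⟩ := h
  refine ⟨?_, h1.2⟩
  rw [← h2]
  unfold iPrime
  rw [Function.iterate_succ_apply']
  exact Nat.prime_nth_prime _

/-- the lower bound for the number of the `a`-primes, uniform in `a` -/
lemma U_card : ∃ D : ℝ, 8 ≤ D ∧ ∀ a X : ℕ, 2 ≤ X → (D * Real.log X) ^ (a + 1) < X →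
    (X : ℝ) ≤ (D * Real.log X) ^ (a + 1) * (U a X).card := by
  classical
  obtain ⟨c, hc, hc4, h⟩ := Pool.Agent.Y886.UT.dens
  refine ⟨2 / c, ?_, fun a X hX hlt => ?_⟩
  · rw [le_div_iff₀ hc]; linarith
  obtain ⟨S, hS1, hS2, hS3⟩ := h a X hX
  have hXR : (2 : ℝ) ≤ X := by exact_mod_cast hX
  have hL : 0 < Real.log X := Real.log_pos (by linarith)
  have hsub : S ⊆ U a X := by
    intro p hp
    unfold U
    rw [mem_filter]
    obtain ⟨u, hu, hu2⟩ := Pool.Agent.TH665.GP.exists_index (hS2 p hp)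
    exact ⟨hS1 hp, u, hu, hu2⟩
  have h1 : (S.card : ℝ) ≤ (U a X).card := by exact_mod_cast card_le_card hsub
  have h2 : c ^ (a + 1) * X ≤ (((U a X).card : ℝ) + 1) * Real.log X ^ (a + 1) :=
    hS3.trans (mul_le_mul_of_nonneg_right (by linarith) (by positivity))
  have hpow : (2 / c * Real.log X) ^ (a + 1) * c ^ (a + 1) = 2 ^ (a + 1) * Real.log X ^ (a + 1) := by
    rw [← mul_pow, ← mul_pow]
    congr 1
    field_simp
  have h2pow : (2 : ℝ) ≤ 2 ^ (a + 1) := by
    calc (2 : ℝ) = 2 ^ 1 := by norm_num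
      _ ≤ 2 ^ (a + 1) := pow_le_pow_right₀ (by norm_num) (by omega)
  have hLp : 0 < Real.log X ^ (a + 1) := by positivity
  have hcp : 0 < c ^ (a + 1) := by positivity
  -- there is at least one
  have hU : (1 : ℝ) ≤ (U a X).card := by
    by_contra hcon
    have h0 : (U a X).card = 0 := by
      by_contra h0
      exact hcon (by exact_mod_cast Nat.one_le_iff_ne_zero.2 h0)
    rw [h0, Nat.cast_zero, zero_add, one_mul] at h2
    have h3 : (2 / c * Real.log X) ^ (a + 1) * c ^ (a + 1) < X * c ^ (a + 1) :=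
      mul_lt_mul_of_pos_right hlt hcp
    rw [hpow] at h3
    have h4 : Real.log X ^ (a + 1) ≤ 2 ^ (a + 1) * Real.log X ^ (a + 1) :=
      le_mul_of_one_le_left hLp.le (by linarith)
    nlinarith
  have h3 : X * c ^ (a + 1) ≤ ((2 / c * Real.log X) ^ (a + 1) * (U a X).card) * c ^ (a + 1) := by
    have h4 : (2 / c * Real.log X) ^ (a + 1) * (U a X).card * c ^ (a + 1) =
        2 ^ (a + 1) * Real.log X ^ (a + 1) * (U a X).card := by
      rw [mul_right_comm, hpow]
    rw [h4]
    calc X * c ^ (a + 1) = c ^ (a + 1) * X := mul_comm _ _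
      _ ≤ (((U a X).card : ℝ) + 1) * Real.log X ^ (a + 1) := h2
      _ ≤ (2 * (U a X).card) * Real.log X ^ (a + 1) := mul_le_mul_of_nonneg_right (by linarith) hLp.le
      _ = 2 * (Real.log X ^ (a + 1) * (U a X).card) := by ring
      _ ≤ 2 ^ (a + 1) * (Real.log X ^ (a + 1) * (U a X).card) :=
          mul_le_mul_of_nonneg_right h2pow (by positivity)
      _ = _ := by ring
  exact le_of_mul_le_mul_right h3 hcp

/-- the range of `A` and `X` -/
lemma range_ok (D η : ℝ) (hD : 8 ≤ D) (hη : 0 < η) : ∃ K : ℝ, 1 ≤ K ∧ ∀ A X : ℕ,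
    K * (((A : ℝ) + 2) * Real.log ((A : ℝ) + 2)) ≤ Real.log X →
      1 ≤ Real.log X ∧ ∀ a ≤ A, (D * Real.log X) ^ (a + 1) ≤ (X : ℝ) ^ η := by
  set M : ℝ := |Real.log D + Real.log (3 / η)| with hM
  have hM0 : 0 ≤ M := abs_nonneg _
  refine ⟨1 + 3 / η + 6 / η * M, ?_, ?_⟩
  · have : 0 ≤ 3 / η + 6 / η * M := by positivity
    linarith
  intro A X hK
  have hl2 := Pool.Agent.Y886.UT.log_two_ge
  have hA0 : (0 : ℝ) ≤ A := Nat.cast_nonneg _
  have hlA : Real.log 2 ≤ Real.log ((A : ℝ) + 2) := Real.log_le_log (by norm_num) (by linarith)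
  have hlA0 : 0 < Real.log ((A : ℝ) + 2) := by linarith
  set K : ℝ := 1 + 3 / η + 6 / η * M with hKdef
  have hK1 : 1 ≤ K := by
    have : 0 ≤ 3 / η + 6 / η * M := by positivity
    rw [hKdef]; linarith
  have hK3 : 3 / η ≤ K := by
    have : 0 ≤ 6 / η * M := by positivity
    rw [hKdef]; linarith
  have hK6 : 6 / η * M ≤ K := by
    have : 0 ≤ 3 / η := by positivity
    rw [hKdef]; linarith
  set L := Real.log X with hL
  have hl2' : (0.69 : ℝ) ≤ Real.log 2 := by linarith [Real.log_two_gt_d9]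
  have hL1 : 1 ≤ L := by
    have h1 : (1 : ℝ) ≤ ((A : ℝ) + 2) * Real.log ((A : ℝ) + 2) := by nlinarith
    have h2 : ((A : ℝ) + 2) * Real.log ((A : ℝ) + 2) ≤
        K * (((A : ℝ) + 2) * Real.log ((A : ℝ) + 2)) := le_mul_of_one_le_left (by linarith) hK1
    linarith
  refine ⟨hL1, fun a ha => ?_⟩
  have hX0 : (0 : ℝ) < X := by
    rcases Nat.eq_zero_or_pos X with h | h
    · rw [hL, h] at hL1
      norm_num at hL1
    · exact_mod_cast h
  set t : ℝ := L / ((A : ℝ) + 2) with ht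
  have hA2 : (0 : ℝ) < (A : ℝ) + 2 := by linarith
  have htL : t * ((A : ℝ) + 2) = L := by rw [ht]; field_simp
  have ht1 : K * Real.log ((A : ℝ) + 2) ≤ t := by
    rw [ht, le_div_iff₀ hA2]
    calc K * Real.log ((A : ℝ) + 2) * ((A : ℝ) + 2) = K * (((A : ℝ) + 2) * Real.log ((A : ℝ) + 2)) := by ring
      _ ≤ L := hK
  have ht0 : 0 < t := by rw [ht]; positivity
  -- the three logarithms
  have e1 : Real.log ((A : ℝ) + 2) ≤ η / 3 * t := by
    have h1 : 3 / η * Real.log ((A : ℝ) + 2) ≤ t :=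
      (mul_le_mul_of_nonneg_right hK3 hlA0.le).trans ht1
    calc Real.log ((A : ℝ) + 2) = η / 3 * (3 / η * Real.log ((A : ℝ) + 2)) := by field_simp
      _ ≤ η / 3 * t := mul_le_mul_of_nonneg_left h1 (by positivity)
  have e2 : Real.log t ≤ η / 3 * t + Real.log (3 / η) := by
    have h1 : t = (η / 3 * t) * (3 / η) := by field_simp
    have h2 : Real.log t = Real.log (η / 3 * t) + Real.log (3 / η) := by
      conv_lhs => rw [h1]
      rw [Real.log_mul (by positivity) (by positivity)]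
    have h3 := Real.log_le_sub_one_of_pos (show 0 < η / 3 * t by positivity)
    linarith
  have e3 : Real.log D + Real.log (3 / η) ≤ η / 3 * t := by
    have h1 : 6 / η * M * (1 / 2) ≤ t := by
      have h2 : K * (1 / 2) ≤ K * Real.log ((A : ℝ) + 2) :=
        mul_le_mul_of_nonneg_left (by linarith) (by linarith)
      have h3 : 6 / η * M * (1 / 2) ≤ K * (1 / 2) := mul_le_mul_of_nonneg_right hK6 (by norm_num)
      linarith
    calc Real.log D + Real.log (3 / η) ≤ M := le_abs_self _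
      _ = η / 3 * (6 / η * M * (1 / 2)) := by field_simp; ring
      _ ≤ η / 3 * t := mul_le_mul_of_nonneg_left h1 (by positivity)
  have hDL : 1 ≤ D * L := by nlinarith
  have e4 : Real.log (D * L) ≤ η * t := by
    have h1 : Real.log (D * L) = Real.log D + (Real.log t + Real.log ((A : ℝ) + 2)) := by
      rw [← htL, Real.log_mul (by linarith) (by positivity), Real.log_mul ht0.ne' hA2.ne']
    rw [h1]
    linarith
  have e5 : ((a + 1 : ℕ) : ℝ) * Real.log (D * L) ≤ η * L := by
    have h1 : ((a + 1 : ℕ) : ℝ) ≤ (A : ℝ) + 2 := by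
      have : ((a + 1 : ℕ) : ℝ) ≤ ((A + 2 : ℕ) : ℝ) := by exact_mod_cast (by omega : a + 1 ≤ A + 2)
      refine this.trans ?_
      push_cast
      linarith
    calc ((a + 1 : ℕ) : ℝ) * Real.log (D * L) ≤ ((A : ℝ) + 2) * Real.log (D * L) :=
          mul_le_mul_of_nonneg_right h1 (Real.log_nonneg hDL)
      _ ≤ ((A : ℝ) + 2) * (η * t) := mul_le_mul_of_nonneg_left e4 hA2.le
      _ = η * L := by rw [← htL]; ring
  rw [Real.rpow_def_of_pos hX0, ← Real.log_le_iff_le_exp (by positivity), Real.log_pow, ← hL,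
    mul_comm L η]
  exact e5

open Classical in
/-- **All types `(a, almost prime)` at once, uniformly in `a`, with few exceptions.** -/
theorem result (ε : ℝ) (hε : 0 < ε) : ∃ c C K : ℝ, 0 < c ∧ 0 < C ∧ 0 < K ∧
    (∀ A X : ℕ, K * (((A : ℝ) + 2) * Real.log ((A : ℝ) + 2)) ≤ Real.log X →
      (∀ a ≤ A, (X : ℝ) ≤ (C * Real.log X) ^ (a + 1) * (U a X).card) ∧
      (((Icc (-(2 * X : ℤ)) (2 * X)).filter (fun N : ℤ =>
        ∃ a ≤ A, (R X ε a N : ℝ) < c * (U a X).card)).card : ℝ) ≤ C ^ (A + 1) * Real.log X ^ A) ∧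
    ∀ᶠ X : ℕ in atTop, (((Icc 1 X).filter (fun n : ℕ => X < 2 * n ∧
        ∃ a b : ℕ, f₂ a b ≤ n ∧ (RS X ε a (2 * n) : ℝ) < c * (U a X).card)).card : ℝ) ≤
      Real.exp (2 * (√(Real.log X) * Real.log (Real.log X))) := by
  obtain ⟨c₁, C₁, η, hc₁, hη, H⟩ := Pool.Agent.W23.SG.sparse_sets ε hε
  obtain ⟨D, hD, hU⟩ := U_card
  set η' : ℝ := min η (1 / 2) with hη'
  have hη'0 : 0 < η' := lt_min hη (by norm_num)
  have hη'h : η' ≤ 1 / 2 := min_le_right _ _
  obtain ⟨K, hK1, hK⟩ := range_ok D η' hD hη'0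
  set C₂ : ℝ := max C₁ 0 with hC₂
  have hC₂0 : 0 ≤ C₂ := le_max_right _ _
  set C : ℝ := (1 + C₂) * (2 * D) with hC
  have hCD : D ≤ C := by rw [hC]; nlinarith
  have hC0 : 0 < C := by linarith
  -- part 1
  have P1 : ∀ A X : ℕ, K * (((A : ℝ) + 2) * Real.log ((A : ℝ) + 2)) ≤ Real.log X →
      (∀ a ≤ A, (X : ℝ) ≤ (C * Real.log X) ^ (a + 1) * (U a X).card) ∧
      (((Icc (-(2 * X : ℤ)) (2 * X)).filter (fun N : ℤ =>
        ∃ a ≤ A, (R X ε a N : ℝ) < c₁ * (U a X).card)).card : ℝ) ≤ C ^ (A + 1) * Real.log X ^ A := by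
    intro A X hAX
    obtain ⟨hL1, hpow⟩ := hK A X hAX
    set L := Real.log X with hL
    have hX2 : 2 ≤ X := by
      by_contra h
      have : X = 0 ∨ X = 1 := by omega
      rcases this with h | h <;> rw [hL, h] at hL1 <;> norm_num at hL1
    have hX2R : (2 : ℝ) ≤ X := by exact_mod_cast hX2
    have hX0 : (0 : ℝ) < X := by linarith
    have hcard : ∀ a ≤ A, (X : ℝ) ≤ (D * L) ^ (a + 1) * (U a X).card := by
      intro a ha
      apply hU a X hX2
      refine (hpow a ha).trans_lt ?_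
      calc (X : ℝ) ^ η' < (X : ℝ) ^ (1 : ℝ) :=
            Real.rpow_lt_rpow_of_exponent_lt (by linarith) (by linarith)
        _ = X := Real.rpow_one _
    refine ⟨fun a ha => (hcard a ha).trans ?_, ?_⟩
    · apply mul_le_mul_of_nonneg_right _ (Nat.cast_nonneg _)
      exact pow_le_pow_left₀ (by nlinarith) (mul_le_mul_of_nonneg_right hCD (by linarith)) _
    -- one `a`
    have hone : ∀ a ≤ A, (((Icc (-(2 * X : ℤ)) (2 * X)).filter (fun N : ℤ =>
        (R X ε a N : ℝ) < c₁ * (U a X).card)).card : ℝ) ≤ C₂ * (D ^ (A + 1) * L ^ A) := by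
      intro a ha
      have h1 := hcard a ha
      have hUpos : (0 : ℝ) < (U a X).card := by
        by_contra h
        have h0 : ((U a X).card : ℝ) = 0 := le_antisymm (not_lt.1 h) (Nat.cast_nonneg _)
        rw [h0, mul_zero] at h1
        linarith
      have h2 : (X : ℝ) ^ (1 - η) ≤ (U a X).card := by
        have h3 : (X : ℝ) ^ (1 - η) ≤ (X : ℝ) ^ (1 - η') :=
          Real.rpow_le_rpow_of_exponent_le (by linarith) (by linarith [min_le_left η (1 / 2)])
        have h4 : (X : ℝ) ^ (1 - η') * (X : ℝ) ^ η' = X := by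
          rw [← Real.rpow_add hX0, sub_add_cancel, Real.rpow_one]
        have h5 : (X : ℝ) ^ (1 - η') * (X : ℝ) ^ η' ≤ (U a X).card * (X : ℝ) ^ η' := by
          rw [h4]
          refine h1.trans ?_
          rw [mul_comm]
          exact mul_le_mul_of_nonneg_left (hpow a ha) (Nat.cast_nonneg _)
        exact h3.trans (le_of_mul_le_mul_right h5 (Real.rpow_pos_of_pos hX0 _))
      have h3 := H X hX2 (U a X) (fun p hp => U_prime hp) h2
      have hsub : ((Icc (-(2 * X : ℤ)) (2 * X)).filter (fun N : ℤ =>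
          (R X ε a N : ℝ) < c₁ * (U a X).card)) ⊆
          ((Icc (-(2 * X : ℤ)) (2 * X)).filter (fun N : ℤ => (((U a X).filter (fun p : ℕ =>
          (p : ℤ) ≠ N ∧ ∃ m s : ℕ, (N - p).natAbs = m * s ∧
            (∀ l : ℕ, l.Prime → l ∣ m → (l : ℝ) < (X : ℝ) ^ ε) ∧
            s.primeFactorsList.length ≤ 2 ∧
            ∀ q ∈ s.primeFactors, (X : ℝ) ^ (1 / 7 : ℝ) < q)).card : ℝ) < c₁ * (U a X).card)) := by
        intro N hN
        rw [mem_filter] at hN ⊢
        refine ⟨hN.1, lt_of_le_of_lt ?_ hN.2⟩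
        have hs : ((U a X).filter (fun p : ℕ => (p : ℤ) ≠ N ∧ ∃ m s : ℕ, (N - p).natAbs = m * s ∧
            (∀ l : ℕ, l.Prime → l ∣ m → (l : ℝ) < (X : ℝ) ^ ε) ∧
            s.primeFactorsList.length ≤ 2 ∧
            ∀ q ∈ s.primeFactors, (X : ℝ) ^ (1 / 7 : ℝ) < q)) ⊆
            (U a X).filter (fun p : ℕ => Almost X ε (N - p).natAbs) := by
          intro p hp
          rw [mem_filter] at hp ⊢
          refine ⟨hp.1, ?_, hp.2.2⟩
          have := hp.2.1
          omega
        unfold R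
        exact_mod_cast card_le_card hs
      have h4 : (((Icc (-(2 * X : ℤ)) (2 * X)).filter (fun N : ℤ =>
          (R X ε a N : ℝ) < c₁ * (U a X).card)).card : ℝ) ≤ C₁ * (X / ((U a X).card * L)) :=
        le_trans (by exact_mod_cast card_le_card hsub) h3
      refine h4.trans ?_
      have hL0 : 0 < L := by linarith
      have h5 : (X : ℝ) / ((U a X).card * L) ≤ D ^ (a + 1) * L ^ a := by
        rw [div_le_iff₀ (by positivity)]
        calc (X : ℝ) ≤ (D * L) ^ (a + 1) * (U a X).card := h1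
          _ = D ^ (a + 1) * L ^ a * ((U a X).card * L) := by rw [mul_pow, pow_succ L a]; ring
      have h6 : D ^ (a + 1) * L ^ a ≤ D ^ (A + 1) * L ^ A := by
        apply mul_le_mul (pow_le_pow_right₀ (by linarith) (by omega)) (pow_le_pow_right₀ hL1 ha)
          (by positivity) (by positivity)
      calc C₁ * (X / ((U a X).card * L)) ≤ C₂ * (X / ((U a X).card * L)) :=
            mul_le_mul_of_nonneg_right (le_max_left _ _) (by positivity)
        _ ≤ C₂ * (D ^ (A + 1) * L ^ A) := mul_le_mul_of_nonneg_left (h5.trans h6) hC₂0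
    -- the union
    have hun : ((Icc (-(2 * X : ℤ)) (2 * X)).filter (fun N : ℤ =>
        ∃ a ≤ A, (R X ε a N : ℝ) < c₁ * (U a X).card)) ⊆
        (range (A + 1)).biUnion (fun a => (Icc (-(2 * X : ℤ)) (2 * X)).filter (fun N : ℤ =>
          (R X ε a N : ℝ) < c₁ * (U a X).card)) := by
      intro N hN
      rw [mem_filter] at hN
      obtain ⟨h1, a, ha, h2⟩ := hN
      rw [mem_biUnion]
      exact ⟨a, mem_range.2 (by omega), mem_filter.2 ⟨h1, h2⟩⟩
    have h1 : (((Icc (-(2 * X : ℤ)) (2 * X)).filter (fun N : ℤ =>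
        ∃ a ≤ A, (R X ε a N : ℝ) < c₁ * (U a X).card)).card : ℝ) ≤
        ∑ a ∈ range (A + 1), (((Icc (-(2 * X : ℤ)) (2 * X)).filter (fun N : ℤ =>
          (R X ε a N : ℝ) < c₁ * (U a X).card)).card : ℝ) := by
      exact_mod_cast (card_le_card hun).trans card_biUnion_le
    have h2 : ∑ a ∈ range (A + 1), (((Icc (-(2 * X : ℤ)) (2 * X)).filter (fun N : ℤ =>
          (R X ε a N : ℝ) < c₁ * (U a X).card)).card : ℝ) ≤
        ∑ a ∈ range (A + 1), C₂ * (D ^ (A + 1) * L ^ A) :=
      sum_le_sum (fun a ha => hone a (by have := mem_range.1 ha; omega))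
    rw [sum_const, card_range, nsmul_eq_mul] at h2
    refine h1.trans (h2.trans ?_)
    have h3 : ((A + 1 : ℕ) : ℝ) ≤ 2 ^ (A + 1) := by exact_mod_cast (Nat.lt_two_pow_self).le
    have h4 : C₂ ≤ (1 + C₂) ^ (A + 1) := by
      calc C₂ ≤ (1 + C₂) ^ 1 := by rw [pow_one]; linarith
        _ ≤ (1 + C₂) ^ (A + 1) := pow_le_pow_right₀ (by linarith) (by omega)
    have hL0 : 0 ≤ L ^ A := by positivity
    have hD0 : 0 ≤ D ^ (A + 1) := by positivity
    calc ((A + 1 : ℕ) : ℝ) * (C₂ * (D ^ (A + 1) * L ^ A)) ≤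
          2 ^ (A + 1) * ((1 + C₂) ^ (A + 1) * (D ^ (A + 1) * L ^ A)) := by
            apply mul_le_mul h3 _ (by positivity) (by positivity)
            exact mul_le_mul_of_nonneg_right h4 (by positivity)
      _ = C ^ (A + 1) * L ^ A := by rw [hC, mul_pow, mul_pow]; ring
  refine ⟨c₁, C, K, hc₁, hC0, by linarith, P1, ?_⟩
  -- part 2
  have hC1 : 1 ≤ C := by linarith
  have ev1 : ∀ᶠ u : ℝ in atTop, Real.log u ≤ 1 / (16 * K) * u := by
    have h1 := Real.isLittleO_log_id_atTop.bound (show (0 : ℝ) < 1 / (16 * K) by positivity)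
    filter_upwards [h1, eventually_ge_atTop (1 : ℝ)] with u hu hu1
    rw [Real.norm_of_nonneg (Real.log_nonneg hu1), id, Real.norm_of_nonneg (by linarith)] at hu
    exact hu
  obtain ⟨u0, hu0⟩ := eventually_atTop.1 ev1
  have ev2 : ∀ᶠ X : ℕ in atTop, max (max (u0 ^ 2) 4) (Real.exp (3 * Real.log C)) ≤ Real.log X ∧
      u0 ≤ √(Real.log X) :=
    (Real.tendsto_log_atTop.comp (tendsto_natCast_atTop_atTop (R := ℝ))).eventually
      ((eventually_ge_atTop _).and (Real.tendsto_sqrt_atTop.eventually (eventually_ge_atTop u0)))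
  filter_upwards [ev2] with X hX
  obtain ⟨hX1, hX2⟩ := hX
  set L := Real.log X with hL
  have hL4 : 4 ≤ L := (le_max_right _ _).trans ((le_max_left _ _).trans hX1)
  have hLC : Real.exp (3 * Real.log C) ≤ L := (le_max_right _ _).trans hX1
  have hlogL : 3 * Real.log C ≤ Real.log L := (Real.le_log_iff_exp_le (by linarith)).2 hLC
  have hX1' : 1 ≤ X := by
    by_contra h
    have : X = 0 := by omega
    rw [hL, this] at hL4
    norm_num at hL4
  set r := √L with hr
  have hr2 : r * r = L := Real.mul_self_sqrt (by linarith)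
  have hr1 : 2 ≤ r := by
    rw [hr]
    apply Real.le_sqrt_of_sq_le
    linarith
  set A : ℕ := Nat.sqrt (Nat.log 2 X) with hA
  have hA1 : (A : ℝ) ≤ 5 / 4 * r := by
    have h1 : A * A ≤ Nat.log 2 X := Nat.sqrt_le _
    have h2 : ((A : ℝ) * A) ≤ Nat.log 2 X := by exact_mod_cast h1
    have h3 := Pool.Agent.Y886.UT.nlog_le hX1'
    have h4 : (A : ℝ) * A * Real.log 2 ≤ L :=
      (mul_le_mul_of_nonneg_right h2 (by linarith [Real.log_two_gt_d9])).trans h3
    have h5 : (0.69 : ℝ) ≤ Real.log 2 := by linarith [Real.log_two_gt_d9]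
    have h6 : (A : ℝ) * A * 0.69 ≤ L :=
      (mul_le_mul_of_nonneg_left h5 (by positivity)).trans h4
    by_contra hcon
    push Not at hcon
    have h7 : (5 / 4 * r) * (5 / 4 * r) < A * A :=
      mul_self_lt_mul_self (by positivity) hcon
    nlinarith
  have hA0 : (0 : ℝ) ≤ A := Nat.cast_nonneg _
  have hrange : K * (((A : ℝ) + 2) * Real.log ((A : ℝ) + 2)) ≤ L := by
    have h1 : (A : ℝ) + 2 ≤ 9 / 4 * r := by linarith
    have h2 : Real.log ((A : ℝ) + 2) ≤ Real.log (9 / 4 * r) := Real.log_le_log (by linarith) h1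
    have h3 : Real.log (9 / 4 * r) ≤ 1 / (16 * K) * (9 / 4 * r) := hu0 _ (by
      have : u0 ≤ r := hX2
      nlinarith)
    have h4 : 0 ≤ Real.log ((A : ℝ) + 2) := Real.log_nonneg (by linarith)
    have h5 : ((A : ℝ) + 2) * Real.log ((A : ℝ) + 2) ≤ (9 / 4 * r) * (1 / (16 * K) * (9 / 4 * r)) :=
      mul_le_mul h1 (h2.trans h3) h4 (by positivity)
    calc K * (((A : ℝ) + 2) * Real.log ((A : ℝ) + 2)) ≤ K * ((9 / 4 * r) * (1 / (16 * K) * (9 / 4 * r))) :=
          mul_le_mul_of_nonneg_left h5 (by linarith)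
      _ = 81 / 256 * (r * r) := by
          have : K ≠ 0 := by linarith
          field_simp
          ring
      _ ≤ L := by rw [hr2]; linarith
  obtain ⟨-, hcount⟩ := P1 A X hrange
  -- the exceptional `n` give exceptional `N`
  have hle : (((Icc 1 X).filter (fun n : ℕ => X < 2 * n ∧
        ∃ a b : ℕ, f₂ a b ≤ n ∧ (RS X ε a (2 * n) : ℝ) < c₁ * (U a X).card)).card : ℝ) ≤
      (((Icc (-(2 * X : ℤ)) (2 * X)).filter (fun N : ℤ =>
        ∃ a ≤ A, (R X ε a N : ℝ) < c₁ * (U a X).card)).card : ℝ) := by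
    have : ((Icc 1 X).filter (fun n : ℕ => X < 2 * n ∧
        ∃ a b : ℕ, f₂ a b ≤ n ∧ (RS X ε a (2 * n) : ℝ) < c₁ * (U a X).card)).card ≤
      ((Icc (-(2 * X : ℤ)) (2 * X)).filter (fun N : ℤ =>
        ∃ a ≤ A, (R X ε a N : ℝ) < c₁ * (U a X).card)).card := by
      apply card_le_card_of_injOn (fun n : ℕ => ((2 * n : ℕ) : ℤ))
      · intro n hn
        rw [mem_coe, mem_filter, mem_Icc] at hn
        obtain ⟨⟨hn1, hn2⟩, hn3, a, b, hab, hlt⟩ := hn
        rw [mem_coe, mem_filter, mem_Icc]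
        refine ⟨⟨by push_cast; omega, by push_cast; omega⟩, a, ?_, ?_⟩
        · have h1 := (Pool.Agent.Y886.UT.f2_ge a b).1
          have h2 : a ^ 2 ≤ Nat.log 2 X := Pool.Agent.Y886.UT.log_of_f2 hn2 hab h1
          rw [hA, Nat.le_sqrt']
          exact h2
        · refine lt_of_le_of_lt ?_ hlt
          unfold R RS
          have hs : (U a X).filter (fun p : ℕ => Almost X ε ((((2 * n : ℕ) : ℤ)) - p).natAbs) ⊆
              (U a X).filter (fun p : ℕ => ∃ k : ℕ, p + k = 2 * n ∧ Almost X ε k) := by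
            intro p hp
            rw [mem_filter] at hp ⊢
            have hpX := (U_prime hp.1).2
            have h3 : ((((2 * n : ℕ) : ℤ)) - p).natAbs = 2 * n - p := by
              have : p ≤ 2 * n := by omega
              omega
            rw [h3] at hp
            exact ⟨hp.1, 2 * n - p, by omega, hp.2⟩
          exact Nat.cast_le.2 (card_le_card hs)
      · intro x _ y _ hxy
        simp only at hxy
        have : 2 * x = 2 * y := by exact_mod_cast hxy
        omega
    exact_mod_cast this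
  refine hle.trans (hcount.trans ?_)
  have hlogL0 : 0 ≤ Real.log L := Real.log_nonneg (by linarith)
  have hlogC0 : 0 ≤ Real.log C := Real.log_nonneg hC1
  have e1 : C ^ (A + 1) * L ^ A = Real.exp (((A : ℝ) + 1) * Real.log C + A * Real.log L) := by
    rw [Real.exp_add]
    congr 1
    · rw [← Nat.cast_succ, mul_comm, Real.exp_mul, Real.exp_log hC0, Real.rpow_natCast]
    · rw [mul_comm, Real.exp_mul, Real.exp_log (by linarith), Real.rpow_natCast]
  rw [e1, Real.exp_le_exp]
  have h1 : ((A : ℝ) + 1) * Real.log C ≤ (9 / 4 * r) * (Real.log L / 3) := by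
    apply mul_le_mul (by linarith) (by linarith) hlogC0 (by positivity)
  have h2 : (A : ℝ) * Real.log L ≤ 5 / 4 * r * Real.log L := mul_le_mul_of_nonneg_right hA1 hlogL0
  calc ((A : ℝ) + 1) * Real.log C + A * Real.log L ≤
        (9 / 4 * r) * (Real.log L / 3) + 5 / 4 * r * Real.log L := add_le_add h1 h2
    _ = 2 * (r * Real.log L) := by ring

end Pool.Agent.Results.MP_e3f158_nt.UniformFewExceptions
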